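import Mathlib
import Pool.Agent.MP_2218cd_lc.Main

set_option autoImplicit false

/-!
# Trees of monochromatic sumsets in `Q(ℵ_ω)`, in ZFC

`Q(κ)` is modelled by the finitely supported functions `ι →₀ ℚ` on a type `ι` of cardinality `κ`.

For every finite colouring of `Q(ℵ_ω)` there is one colour `i` such that for every finite `n` and
every `κ < ℵ_ω` there is a tree of height `n`, every node of which has at least `κ` successors,
whose top sets `X` (with `n` elements) all have `X + X` monochromatic of colour `i`. No hypothesis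
on cardinal exponentiation is used; the proof combines Kuratowski's free set theorem with the
multidimensional Hales-Jewett theorem.
-/

namespace Pool.Agent.Results.MP_2218cd_lc.BranchingTrees

open Cardinal Order

universe u

/-- Every sum `x + y` of two members `x, y` (possibly equal) of `s` has colour `i`; in other
words `s + s` is monochromatic of colour `i`. -/
def Mono {V : Type u} [Add V] {r : ℕ} (c : V → Fin r) (i : Fin r) (s : Set V) : Prop :=
  ∀ x ∈ s, ∀ y ∈ s, c (x + y) = i

/-- `Branch c i κ n s`: the set `s` is the root of a tree of height `n` in which one adds a new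
vector at each step, every node has at least `κ` successors, and the sets `t` at the top level
all have `t + t` monochromatic of colour `i`. -/
def Branch {V : Type u} [Add V] {r : ℕ} (c : V → Fin r) (i : Fin r) (κ : Cardinal.{u}) :
    ℕ → Set V → Prop
  | 0, s => Mono c i s
  | n + 1, s => κ ≤ #{y : V // y ∉ s ∧ Branch c i κ n (insert y s)}

theorem branch_eq {V : Type u} [Add V] {r : ℕ} (c : V → Fin r) (i : Fin r) (κ : Cardinal.{u})
    (n : ℕ) : ∀ s : Set V, Branch c i κ n s = Pool.Agent.MP_2218cd_lc.Branch c i κ n s := by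
  induction n with
  | zero => exact fun _ => rfl
  | succ n ih =>
    intro s
    simp only [Branch, Pool.Agent.MP_2218cd_lc.Branch, ih]

/-- The embedding of `ι →₀ ℤ` into `ι →₀ ℚ`. -/
noncomputable def emb (ι : Type u) : (ι →₀ ℤ) →+ (ι →₀ ℚ) :=
  Finsupp.mapRange.addMonoidHom (Int.castAddHom ℚ)

theorem emb_injective (ι : Type u) : Function.Injective (emb ι) := by
  intro x y h
  ext j
  have h1 := DFunLike.congr_fun h j
  simpa [emb] using h1

/-- In ZFC: (1) for every finite colouring `c` of `Q(ℵ_ω)` there is one colour `i` such that for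
every `n` and every `κ < ℵ_ω` there is a tree of height `n`, all of whose nodes have at least `κ`
successors, of sets `X` with `X + X` monochromatic of colour `i`; (2) in particular for every `n`
and `κ < ℵ_ω` there are a set `X` of `n` vectors and a set `Y` of at least `κ` other vectors such
that all `x + x'`, `x + y`, `y + y` (`x, x'` in `X`, `y` in `Y`) have colour `i`; (3) the
quantitative form: for all `r`, `n` there is `m` such that every `r`-colouring of an abelian group
that contains a free abelian group of rank at least `λ^{+m}`, `λ` any infinite cardinal, has a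
tree of height `n` as in (1) with at least `λ` successors at each node. -/
theorem result :
    (∀ ι : Type u, ℵ_ Ordinal.omega0 ≤ #ι → ∀ (r : ℕ) (c : (ι →₀ ℚ) → Fin r), ∃ i : Fin r,
      ∀ (n : ℕ) (κ : Cardinal.{u}), κ < ℵ_ Ordinal.omega0 →
        Branch c i κ n ∅ ∧
        ∃ X Y : Set (ι →₀ ℚ), X.encard = n ∧ κ ≤ #Y ∧ Disjoint X Y ∧
          (∀ x ∈ X, ∀ x' ∈ X, c (x + x') = i) ∧ (∀ x ∈ X, ∀ y ∈ Y, c (x + y) = i) ∧
          ∀ y ∈ Y, c (y + y) = i) ∧
    (∀ r n : ℕ, ∃ m : ℕ, ∀ lam : Cardinal.{u}, ℵ₀ ≤ lam → ∀ (ι A : Type u) [AddCommGroup A]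
      (f : (ι →₀ ℤ) →+ A), Function.Injective f → (succ^[m] lam) ≤ #ι →
      ∀ c : A → Fin r, ∃ i : Fin r, Branch c i lam n ∅) := by
  refine ⟨fun ι hι r c => ?_, fun r n => ?_⟩
  · obtain ⟨i, hi⟩ := Pool.Agent.MP_2218cd_lc.exists_branch_aleph ι (ι →₀ ℚ) (emb ι)
      (emb_injective ι) hι r c
    refine ⟨i, fun n κ hκ => ⟨?_, ?_⟩⟩
    · rw [branch_eq]
      exact hi n κ hκ
    · have h0 : max κ ℵ₀ < ℵ_ Ordinal.omega0.{u} := by
        refine max_lt hκ ?_
        rw [← aleph_zero]
        exact aleph_lt_aleph.2 Ordinal.omega0_pos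
      have h1 : (1 : Cardinal.{u}) ≤ max κ ℵ₀ := one_le_aleph0.trans (le_max_right _ _)
      obtain ⟨t, -, ht, hb⟩ := Pool.Agent.MP_2218cd_lc.Branch.fan h1 n ∅ (hi (n + 1) _ h0)
      rw [Set.sdiff_empty] at ht
      refine ⟨t, {y | y ∉ t ∧ Pool.Agent.MP_2218cd_lc.Mono c i (insert y t)}, ht,
        (le_max_left _ _).trans hb, ?_, ?_, ?_, ?_⟩
      · rw [Set.disjoint_left]
        exact fun x hx hy => hy.1 hx
      · exact (hb.isMono h1)
      · exact fun x hx y hy => hy.2 x (Set.mem_insert_of_mem _ hx) y (Set.mem_insert _ _)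
      · exact fun y hy => hy.2 y (Set.mem_insert _ _) y (Set.mem_insert _ _)
  · obtain ⟨m, hm⟩ := Pool.Agent.MP_2218cd_lc.exists_branch_group.{u} r n
    refine ⟨m, fun lam hl ι A _ f hf hι c => ?_⟩
    obtain ⟨i, hi⟩ := hm lam hl ι A f hf hι c
    exact ⟨i, by rw [branch_eq]; exact hi⟩

end Pool.Agent.Results.MP_2218cd_lc.BranchingTrees
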